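import Mathlib
import Pool.Agent.R528.RM.Cher
import Pool.Agent.R528.RM.Gold

set_option autoImplicit false
set_option linter.unusedSectionVars false

/-! # Adapted random sets: concentration in all intervals -/

open MeasureTheory Filter Set
open scoped Topology ENNReal

namespace Pool.Agent.R301.GM

open Pool.Agent.R528.RM

variable {Ω : Type} {m0 : MeasurableSpace Ω} {μ : Measure Ω} [IsProbabilityMeasure μ]
  {ℱ : Filtration ℕ m0} {A : ℕ → Set Ω}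

/-- the number of chosen integers among `a + 1, ..., a + M` -/
noncomputable def NN (A : ℕ → Set Ω) (a M : ℕ) (ω : Ω) : ℝ :=
  ∑ k ∈ Finset.range M, (A (a + k + 1)).indicator (fun _ => (1 : ℝ)) ω

/-- the sum of the conditional probabilities -/
noncomputable def DS (μ : Measure Ω) (ℱ : Filtration ℕ m0) (A : ℕ → Set Ω) (a M : ℕ) (ω : Ω) : ℝ :=
  ∑ k ∈ Finset.range M, dens μ ℱ A (a + k) ω

/-- the counts in all intervals `(a, a + M]` with `M ≤ 2 a` -/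
theorem conc (hA : ∀ n, MeasurableSet[ℱ n] (A n)) :
    ∀ᵐ ω ∂μ, ∀ ε : ℝ, 0 < ε → ∃ C : ℝ, 0 < C ∧ ∀ᶠ a : ℕ in atTop, ∀ M ≤ 2 * a,
      |NN A a M ω - DS μ ℱ A a M ω| ≤ ε * DS μ ℱ A a M ω + C * Real.log a := by
  have key : ∀ m : ℕ, ∀ᵐ ω ∂μ, ∀ᶠ a : ℕ in atTop, ∀ M ≤ 2 * a,
      |NN A a M ω - DS μ ℱ A a M ω| ≤ (1 / ((m : ℝ) + 1)) * DS μ ℱ A a M ω +
        4 * Real.log a / (1 / ((m : ℝ) + 1)) := by
    intro m
    obtain ⟨s, hs⟩ : ∃ s : ℝ, s = 1 / ((m : ℝ) + 1) := ⟨_, rfl⟩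
    have hs0 : 0 < s := by rw [hs]; positivity
    have hs1 : s ≤ 1 := by
      rw [hs, div_le_one (by positivity)]
      linarith [Nat.cast_nonneg (α := ℝ) m]
    rw [← hs]
    have hsum : Summable (fun n : ℕ => 6 * ((n : ℝ) ^ 2)⁻¹) :=
      (Real.summable_nat_pow_inv.2 (by norm_num)).mul_left 6
    have h1 := bc_real (μ := μ) hsum (s := fun a => ⋃ M ∈ Finset.range (2 * a + 1),
      {ω | s * Vw μ ℱ A a (fun _ _ => 1) M ω + (4 * Real.log a) / s ≤ |Sw μ ℱ A a (fun _ _ => 1) M ω|}) (by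
      filter_upwards [eventually_ge_atTop 1] with a ha
      have ha' : (1 : ℝ) ≤ a := by exact_mod_cast ha
      refine (measureReal_biUnion_finset_le _ _).trans ?_
      have h2 : ∀ M ∈ Finset.range (2 * a + 1), μ.real {ω | s * Vw μ ℱ A a (fun _ _ => 1) M ω +
          (4 * Real.log a) / s ≤ |Sw μ ℱ A a (fun _ _ => 1) M ω|} ≤ 2 * ((a : ℝ) ^ 4)⁻¹ := by
        intro M _
        refine (Cw_tail (μ := μ) hA a (fun _ _ => 1) (fun _ => stronglyMeasurable_const)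
          (fun _ _ => ⟨zero_le_one, le_rfl⟩) hs0 hs1 M (4 * Real.log a)).trans (le_of_eq ?_)
        rw [Real.exp_neg, mul_comm (4 : ℝ), Real.exp_mul, Real.exp_log (by linarith)]
        norm_num
      refine (Finset.sum_le_sum h2).trans ?_
      rw [Finset.sum_const, Finset.card_range, nsmul_eq_mul]
      push_cast
      have h3 : ((a : ℝ) ^ 4)⁻¹ = ((a : ℝ) ^ 2)⁻¹ * ((a : ℝ) ^ 2)⁻¹ := by
        rw [← mul_inv, ← pow_add]
      have h4 : ((a : ℝ) ^ 2)⁻¹ * a ≤ 1 := by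
        rw [inv_mul_le_iff₀ (by positivity)]
        nlinarith
      have h5 : 0 < ((a : ℝ) ^ 2)⁻¹ := by positivity
      rw [h3]
      calc (2 * (a : ℝ) + 1) * (2 * (((a : ℝ) ^ 2)⁻¹ * ((a : ℝ) ^ 2)⁻¹)) ≤
          (3 * (a : ℝ)) * (2 * (((a : ℝ) ^ 2)⁻¹ * ((a : ℝ) ^ 2)⁻¹)) :=
            mul_le_mul_of_nonneg_right (by linarith) (by positivity)
        _ = 6 * ((a : ℝ) ^ 2)⁻¹ * (((a : ℝ) ^ 2)⁻¹ * a) := by ring
        _ ≤ 6 * ((a : ℝ) ^ 2)⁻¹ * 1 := mul_le_mul_of_nonneg_left h4 (by positivity)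
        _ = _ := mul_one _)
    filter_upwards [h1] with ω hω
    filter_upwards [hω] with a ha M hM
    simp only [mem_iUnion, Finset.mem_range, mem_ofPred_eq, not_exists, not_le] at ha
    have h2 := (ha M (by omega)).le
    have e1 : Vw μ ℱ A a (fun _ _ => 1) M ω = DS μ ℱ A a M ω := by
      unfold Vw DS
      simp
    have e2 : Sw μ ℱ A a (fun _ _ => 1) M ω = NN A a M ω - DS μ ℱ A a M ω := by
      unfold Sw NN DS
      simp
    rwa [e1, e2] at h2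
  have h01 : ∀ᵐ ω ∂μ, ∀ n, 0 ≤ dens μ ℱ A n ω ∧ dens μ ℱ A n ω ≤ 1 := ae_all_iff.2 fun n => dens01 hA n
  filter_upwards [ae_all_iff.2 key, h01] with ω hω h01 ε hε
  obtain ⟨m, hm⟩ := exists_nat_one_div_lt hε
  refine ⟨4 / (1 / ((m : ℝ) + 1)), by positivity, ?_⟩
  filter_upwards [hω m] with a ha M hM
  refine (ha M hM).trans ?_
  have h2 : 0 ≤ DS μ ℱ A a M ω := Finset.sum_nonneg fun k _ => (h01 _).1
  have h3 : 1 / ((m : ℝ) + 1) * DS μ ℱ A a M ω ≤ ε * DS μ ℱ A a M ω := mul_le_mul_of_nonneg_right hm.le h2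
  have h4 : 4 * Real.log a / (1 / ((m : ℝ) + 1)) = 4 / (1 / ((m : ℝ) + 1)) * Real.log a := by ring
  rw [h4]
  linarith

end Pool.Agent.R301.GM
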