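import Mathlib
import Pool.Agent.R528.RM.RoughCount
import Pool.Agent.Y829.RZ3

set_option autoImplicit false
set_option linter.unusedSectionVars false

/-! # The sieve densities in intervals longer than a power of the logarithm -/

open Finset Filter
open scoped Topology

namespace Pool.Agent.R301.GM

open Pool.Agent.R528.RM

/-- no prime factor of `m` is at most `w` -/
def Free (w m : ℕ) : Prop := ∀ p, p.Prime → p ∣ m → w < p

lemma Free.anti {w w' m : ℕ} (h : Free w' m) (hw : w ≤ w') : Free w m :=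
  fun p hp hd => hw.trans_lt (h p hp hd)

open Classical in
/-- the number of the integers `n + 1, ..., n + U` without prime factors up to `w` -/
noncomputable def rc (w n U : ℕ) : ℕ := ((range U).filter (fun k => Free w (n + k + 1))).card

lemma cop_iff (w m : ℕ) : m.Coprime (Pool.Agent.W89.Sv.PZ 1 (w + 1)) ↔ Free w m := by
  constructor
  · intro h p hp hd
    by_contra hcon
    push Not at hcon
    have h4 := Pool.Agent.W89.Sv.dvd_PZ (m := 1) hp (show p < w + 1 by omega)
      (fun h => hp.one_lt.ne' (Nat.dvd_one.1 h))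
    exact Nat.not_coprime_of_dvd_of_dvd hp.one_lt hd h4 h
  · intro h
    rw [Nat.coprime_iff_gcd_eq_one]
    by_contra hcon
    obtain ⟨p, hp, hpd⟩ := Nat.exists_prime_and_dvd hcon
    have h3 := h p hp (hpd.trans (Nat.gcd_dvd_left _ _))
    have h4 := (Pool.Agent.W89.Sv.prime_dvd_PZ hp (hpd.trans (Nat.gcd_dvd_right _ _))).1
    omega

lemma sift_rc (w n U : ℕ) :
    Pool.Agent.W89.Sv.sift 1 (Icc 1 U) (fun h => n + h) 1 (w + 1) = (rc w n U : ℝ) := by
  classical
  unfold Pool.Agent.W89.Sv.sift rc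
  congr 1
  symm
  refine card_bij (fun k _ => k + 1) ?_ ?_ ?_
  · intro k hk
    rw [mem_filter, mem_range] at hk
    rw [mem_filter, mem_Icc]
    exact ⟨⟨by omega, by omega⟩, one_dvd _, (cop_iff w _).2 hk.2⟩
  · intro k _ k' _ h
    omega
  · intro k hk
    rw [mem_filter, mem_Icc] at hk
    refine ⟨k - 1, ?_, by omega⟩
    rw [mem_filter, mem_range]
    refine ⟨by omega, ?_⟩
    have := (cop_iff w _).1 hk.2.2
    rwa [show n + (k - 1) + 1 = n + k by omega]

lemma VZ_MM (w : ℕ) : Pool.Agent.W89.Sv.VZ 1 (w + 1) = (MM w)⁻¹ := by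
  unfold Pool.Agent.W89.Sv.VZ MM
  rw [Finset.prod_inv_distrib, inv_inv]
  apply Finset.prod_congr
  · ext p
    rw [Pool.Agent.W89.Sv.mem_PP, mem_filter, mem_Icc]
    constructor
    · rintro ⟨h1, h2, _⟩
      exact ⟨⟨h2.one_lt.le, by omega⟩, h2⟩
    · rintro ⟨⟨h1, h2⟩, h3⟩
      exact ⟨by omega, h3, fun h => h3.one_lt.ne' (Nat.dvd_one.1 h)⟩
  · intro p _
    rw [one_div]

/-- the fundamental lemma for intervals -/
theorem rc_fund {ε : ℝ} (hε : 0 < ε) : ∃ s w0 : ℕ, 1 ≤ s ∧ ∀ w : ℕ, w0 ≤ w → ∀ n U : ℕ,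
    ((w : ℝ) + 1) ^ s ≤ U → |(rc w n U : ℝ) - U / MM w| ≤ ε * (U / MM w) := by
  obtain ⟨B, κ, hB, hκ, h⟩ := Pool.Agent.Y829.RZ.fl
  have h1 : Tendsto (fun s : ℕ => B * κ ^ s / (s.factorial : ℝ)) atTop (𝓝 0) := by
    have := (FloorSemiring.tendsto_pow_div_factorial_atTop κ).const_mul B
    rw [mul_zero] at this
    refine this.congr fun s => ?_
    ring
  obtain ⟨s, hs1, hs2⟩ := ((eventually_ge_atTop 1).and (h1.eventually (gt_mem_nhds (show 0 < ε / 2 by positivity)))).exists
  obtain ⟨z0, hz0⟩ := h s hs1 (ε / 2) (by positivity)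
  refine ⟨s, z0, hs1, fun w hw n U hU => ?_⟩
  have h2 := hz0 (w + 1) (by omega) n U 1 one_pos (Nat.coprime_one_left _) (by
    rw [Nat.cast_one, div_one, Real.rpow_natCast]
    push_cast
    exact hU)
  rw [sift_rc, VZ_MM, Nat.cast_one, div_one, ← div_eq_mul_inv] at h2
  refine h2.trans ?_
  have h3 := MM_pos w
  apply mul_le_mul_of_nonneg_right _ (by positivity)
  linarith

/-- the size of the product at the level `z n` -/
theorem MM_asym {z : ℕ → ℕ} {θ : ℝ} (hθ : 0 < θ)
    (hz : Tendsto (fun n : ℕ => Real.log (z n) / Real.log (Real.log n)) atTop (𝓝 θ)) :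
    Tendsto z atTop atTop ∧
    Tendsto (fun n : ℕ => MM (z n) / Real.log (Real.log n)) atTop (𝓝 (Real.exp Real.eulerMascheroniConstant * θ)) := by
  have hLL : Tendsto (fun n : ℕ => Real.log (Real.log (n : ℝ))) atTop atTop :=
    (Real.tendsto_log_atTop.comp Real.tendsto_log_atTop).comp tendsto_natCast_atTop_atTop
  have h1 : Tendsto (fun n : ℕ => Real.log (z n)) atTop atTop := by
    refine (hz.pos_mul_atTop hθ hLL).congr' ?_
    filter_upwards [hLL.eventually_gt_atTop 0] with n hn
    field_simp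
  have h2 : Tendsto z atTop atTop := by
    rw [← tendsto_natCast_atTop_iff (R := ℝ)]
    refine tendsto_atTop_mono (fun n => ?_) h1
    rcases Nat.eq_zero_or_pos (z n) with h | h
    · rw [h]
      simp
    · have h3 : (0 : ℝ) < z n := by exact_mod_cast h
      linarith [Real.log_le_sub_one_of_pos h3]
  refine ⟨h2, ?_⟩
  have h3 := (MM_lim.comp h2).mul hz
  refine h3.congr' ?_
  filter_upwards [h1.eventually_gt_atTop 0] with n hn
  simp only [Function.comp]
  field_simp

/-- uniform facts on `[a, 3 a + 1]` -/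
theorem unif_facts {z : ℕ → ℕ} {θ : ℝ} (hθ : 0 < θ)
    (hz : Tendsto (fun n : ℕ => Real.log (z n) / Real.log (Real.log n)) atTop (𝓝 θ)) (w0 : ℕ)
    {δ : ℝ} (hδ0 : 0 < δ) (hδ1 : δ ≤ 1) :
    ∀ᶠ a : ℕ in atTop, 1 ≤ Real.log a ∧ 0 < Real.exp Real.eulerMascheroniConstant * θ * Real.log (Real.log a) ∧
      ∀ m : ℕ, a ≤ m → m ≤ 3 * a + 1 →
        w0 ≤ z m ∧ Real.log a ≤ Real.log m ∧ Real.log m ≤ (1 + δ) * Real.log a ∧
        (1 - δ) * (Real.exp Real.eulerMascheroniConstant * θ * Real.log (Real.log a)) ≤ MM (z m) ∧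
        MM (z m) ≤ (1 + 3 * δ) * (Real.exp Real.eulerMascheroniConstant * θ * Real.log (Real.log a)) ∧
        (z m : ℝ) + 1 ≤ Real.log a ^ (2 * ⌈θ⌉₊ + 2) := by
  obtain ⟨hzt, hM⟩ := MM_asym hθ hz
  obtain ⟨c, hc⟩ : ∃ c : ℝ, c = Real.exp Real.eulerMascheroniConstant * θ := ⟨_, rfl⟩
  have hc0 : 0 < c := by rw [hc]; positivity
  rw [← hc] at hM
  have hL : Tendsto (fun n : ℕ => Real.log (n : ℝ)) atTop atTop :=
    Real.tendsto_log_atTop.comp tendsto_natCast_atTop_atTop
  have hLL : Tendsto (fun n : ℕ => Real.log (Real.log (n : ℝ))) atTop atTop :=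
    Real.tendsto_log_atTop.comp hL
  have e1 := hM.eventually (Metric.ball_mem_nhds c (show 0 < δ * c by positivity))
  have e2 := hz.eventually (gt_mem_nhds (show θ < θ + 1 / 2 by linarith))
  have e3 := hzt.eventually_ge_atTop (max w0 1)
  obtain ⟨n₁, hn₁⟩ := eventually_atTop.1 (e1.and (e2.and (e3.and (hLL.eventually_ge_atTop 4))))
  filter_upwards [eventually_ge_atTop (max n₁ 1), hL.eventually_ge_atTop (2 / δ), hL.eventually_ge_atTop 1,
    hLL.eventually_ge_atTop 4] with a ha hLa hLa1 hLLa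
  have ha1 : (1 : ℝ) ≤ a := by exact_mod_cast (le_max_right _ _).trans ha
  rw [← hc]
  refine ⟨hLa1, by positivity, fun m hm1 hm2 => ?_⟩
  obtain ⟨f1, f2, f3, f4⟩ := hn₁ m ((le_max_left _ _).trans (ha.trans hm1))
  have f3a : w0 ≤ z m := (le_max_left _ _).trans f3
  have f3b : (1 : ℝ) ≤ z m := by exact_mod_cast (le_max_right w0 1).trans f3
  have hm1' : (a : ℝ) ≤ m := by exact_mod_cast hm1
  have hm2' : (m : ℝ) ≤ 4 * a := by
    have : (m : ℝ) ≤ 3 * a + 1 := by exact_mod_cast hm2
    linarith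
  have g1 : Real.log a ≤ Real.log m := Real.log_le_log (by linarith) hm1'
  have g2 : Real.log m ≤ (1 + δ) * Real.log a := by
    have h1 : Real.log m ≤ Real.log (4 * a) := Real.log_le_log (by linarith) hm2'
    rw [Real.log_mul (by norm_num) (by linarith), show (4 : ℝ) = 2 ^ 2 by norm_num, Real.log_pow] at h1
    have h2 := Real.log_two_lt_d9
    have h3 : 2 ≤ δ * Real.log a := by
      rw [div_le_iff₀ hδ0] at hLa
      linarith
    push_cast at h1
    linarith
  have g3 : Real.log (Real.log a) ≤ Real.log (Real.log m) := Real.log_le_log (by linarith) g1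
  have g4 : Real.log (Real.log m) ≤ (1 + δ) * Real.log (Real.log a) := by
    have h1 : Real.log (Real.log m) ≤ Real.log ((1 + δ) * Real.log a) := Real.log_le_log (by linarith) g2
    rw [Real.log_mul (by linarith) (by linarith)] at h1
    have h2 : Real.log (1 + δ) ≤ δ := by
      have := Real.log_le_sub_one_of_pos (show 0 < 1 + δ by linarith)
      linarith
    nlinarith
  have f1' : |MM (z m) / Real.log (Real.log m) - c| < δ * c := by
    rw [← Real.dist_eq]
    exact f1
  obtain ⟨f5, f6⟩ := abs_lt.1 f1'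
  have hLm : 0 < Real.log (Real.log m) := by linarith
  have f5' : (1 - δ) * c * Real.log (Real.log m) ≤ MM (z m) := by
    have : (1 - δ) * c ≤ MM (z m) / Real.log (Real.log m) := by linarith
    rwa [le_div_iff₀ hLm] at this
  have f6' : MM (z m) ≤ (1 + δ) * c * Real.log (Real.log m) := by
    have : MM (z m) / Real.log (Real.log m) ≤ (1 + δ) * c := by linarith
    rwa [div_le_iff₀ hLm] at this
  refine ⟨f3a, g1, g2, ?_, ?_, ?_⟩
  · refine le_trans ?_ f5'
    have : (1 - δ) * c * Real.log (Real.log a) ≤ (1 - δ) * c * Real.log (Real.log m) :=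
      mul_le_mul_of_nonneg_left g3 (mul_nonneg (by linarith) hc0.le)
    linarith
  · refine f6'.trans ?_
    calc (1 + δ) * c * Real.log (Real.log m) ≤ (1 + δ) * c * ((1 + δ) * Real.log (Real.log a)) :=
          mul_le_mul_of_nonneg_left g4 (by positivity)
      _ = (1 + δ) * (1 + δ) * (c * Real.log (Real.log a)) := by ring
      _ ≤ (1 + 3 * δ) * (c * Real.log (Real.log a)) :=
          mul_le_mul_of_nonneg_right (by nlinarith) (by positivity)
  · have h1 : Real.log ((z m : ℝ) + 1) ≤ ((2 * ⌈θ⌉₊ + 2 : ℕ) : ℝ) * Real.log (Real.log a) := by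
      have h2 : Real.log ((z m : ℝ) + 1) ≤ Real.log (2 * z m) := Real.log_le_log (by linarith) (by linarith)
      rw [Real.log_mul (by norm_num) (by linarith)] at h2
      have h3 := Real.log_two_lt_d9
      rw [div_lt_iff₀ hLm] at f2
      have h4 := Nat.le_ceil θ
      have h5 : (θ + 1 / 2) * Real.log (Real.log m) ≤ (θ + 1 / 2) * (2 * Real.log (Real.log a)) := by
        apply mul_le_mul_of_nonneg_left _ (by linarith)
        nlinarith
      push_cast
      nlinarith
    rw [← Real.log_pow] at h1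
    exact (Real.log_le_log_iff (by linarith) (by positivity)).1 h1

end Pool.Agent.R301.GM
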