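import Mathlib
import Pool.Agent.R301.GM.Conc
import Pool.Agent.R301.GM.Det
import Pool.Agent.R301.RM.PowLog

set_option autoImplicit false
set_option linter.unusedSectionVars false

/-! # Sieved random models: uniform law in intervals longer than a power of the logarithm -/

open Finset Filter MeasureTheory
open scoped Topology

namespace Pool.Agent.R301.GM

open Pool.Agent.R528.RM

/-- the sums of the densities -/
theorem det_main {z : ℕ → ℕ} (hmono : Monotone z) {θ : ℝ} (hθ : 0 < θ)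
    (hz : Tendsto (fun n : ℕ => Real.log (z n) / Real.log (Real.log n)) atTop (𝓝 θ))
    {ε : ℝ} (hε : 0 < ε) : ∃ K : ℕ, 3 ≤ K ∧
    ∀ D : ℕ → ℝ, (∀ n, 0 ≤ D n) → (∀ n, ¬ Free (z (n + 1)) (n + 1) → D n = 0) →
      Tendsto (fun n : ℕ => D n * Real.log n / MM (z (n + 1)))
        (atTop ⊓ 𝓟 {n | Free (z (n + 1)) (n + 1)}) (𝓝 1) →
      ∀ᶠ a : ℕ in atTop, ∀ M : ℕ, Real.log a ^ K ≤ M → M ≤ 2 * a →
        |∑ k ∈ range M, D (a + k) - M / Real.log a| ≤ ε * (M / Real.log a) := by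
  classical
  obtain ⟨δ, hδ0, hδ1, hδε⟩ : ∃ δ : ℝ, 0 < δ ∧ δ ≤ 1 / 8 ∧ 12 * δ ≤ ε := by
    refine ⟨min (1 / 8) (ε / 12), lt_min (by norm_num) (by positivity), min_le_left _ _, ?_⟩
    have := min_le_right (1 / 8) (ε / 12)
    linarith
  obtain ⟨s, w0, hs1, hfund⟩ := rc_fund hδ0
  refine ⟨(2 * ⌈θ⌉₊ + 2) * s + 3, by omega, fun D hD0 hDz hD => ?_⟩
  have hev := hD.eventually (Metric.ball_mem_nhds 1 hδ0)
  rw [eventually_inf_principal] at hev
  obtain ⟨n₁, hn₁⟩ := eventually_atTop.1 hev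
  filter_upwards [unif_facts hθ hz w0 hδ0 (by linarith), eventually_ge_atTop (max n₁ 1)] with a hu ha M hM1 hM2
  obtain ⟨hLa, hX0, hu⟩ := hu
  have han₁ : n₁ ≤ a := (le_max_left _ _).trans ha
  have ha1 : 1 ≤ a := (le_max_right _ _).trans ha
  obtain ⟨X, hX⟩ : ∃ X : ℝ, X = Real.exp Real.eulerMascheroniConstant * θ * Real.log (Real.log a) := ⟨_, rfl⟩
  rw [← hX] at hX0 hu
  obtain ⟨L, hL⟩ : ∃ L : ℝ, L = Real.log a := ⟨_, rfl⟩
  rw [← hL] at hLa hu hM1 ⊢
  have hL0 : 0 < L := by linarith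
  have hM0 : (0 : ℝ) < M := lt_of_lt_of_le (by positivity) hM1
  have hMs : ∀ m : ℕ, a ≤ m → m ≤ 3 * a + 1 → ((z m : ℝ) + 1) ^ s ≤ M := by
    intro m h1 h2
    obtain ⟨-, -, -, -, -, h3⟩ := hu m h1 h2
    calc ((z m : ℝ) + 1) ^ s ≤ (L ^ (2 * ⌈θ⌉₊ + 2)) ^ s := pow_le_pow_left₀ (by positivity) h3 s
      _ = L ^ ((2 * ⌈θ⌉₊ + 2) * s) := by rw [← pow_mul]
      _ ≤ L ^ ((2 * ⌈θ⌉₊ + 2) * s + 3) := pow_le_pow_right₀ hLa (by omega)
      _ ≤ M := hM1
  -- the density at a free point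
  have hDb : ∀ k < M, Free (z (a + k + 1)) (a + k + 1) →
      (1 - δ) * MM (z (a + k + 1)) ≤ D (a + k) * Real.log ((a + k : ℕ) : ℝ) ∧
        D (a + k) * Real.log ((a + k : ℕ) : ℝ) ≤ (1 + δ) * MM (z (a + k + 1)) := by
    intro k _ hf
    have h1 : D (a + k) * Real.log ((a + k : ℕ) : ℝ) / MM (z (a + k + 1)) ∈ Metric.ball (1 : ℝ) δ :=
      hn₁ (a + k) (by omega) hf
    rw [Metric.mem_ball, Real.dist_eq, abs_lt] at h1
    have h2 := MM_pos (z (a + k + 1))
    constructor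
    · have : 1 - δ ≤ D (a + k) * Real.log ((a + k : ℕ) : ℝ) / MM (z (a + k + 1)) := by linarith [h1.1]
      rwa [le_div_iff₀ h2] at this
    · have : D (a + k) * Real.log ((a + k : ℕ) : ℝ) / MM (z (a + k + 1)) ≤ 1 + δ := by linarith [h1.2]
      rwa [div_le_iff₀ h2] at this
  have hT0 : 0 < (M : ℝ) / L := by positivity
  -- upper bound
  have hup : ∑ k ∈ range M, D (a + k) ≤ (1 + 12 * δ) * (M / L) := by
    have h1 : ∀ k ∈ range M, D (a + k) ≤ if Free (z a) (a + k + 1) then (1 + δ) * (1 + 3 * δ) * X / L else 0 := by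
      intro k hk
      have hk := mem_range.1 hk
      by_cases hf : Free (z (a + k + 1)) (a + k + 1)
      · rw [if_pos (hf.anti (hmono (by omega)))]
        obtain ⟨-, -, -, -, h3, -⟩ := hu (a + k + 1) (by omega) (by omega)
        obtain ⟨-, h5, -, -, -, -⟩ := hu (a + k) (by omega) (by omega)
        have h6 := (hDb k hk hf).2
        rw [le_div_iff₀ hL0]
        calc D (a + k) * L ≤ D (a + k) * Real.log ((a + k : ℕ) : ℝ) :=
              mul_le_mul_of_nonneg_left h5 (hD0 _)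
          _ ≤ (1 + δ) * MM (z (a + k + 1)) := h6
          _ ≤ (1 + δ) * ((1 + 3 * δ) * X) := mul_le_mul_of_nonneg_left h3 (by linarith)
          _ = _ := by ring
      · rw [hDz _ hf]
        split_ifs
        · positivity
        · exact le_rfl
    refine (sum_le_sum h1).trans ?_
    rw [← sum_filter, sum_const, nsmul_eq_mul]
    obtain ⟨hw, -, -, h4, -, -⟩ := hu a le_rfl (by omega)
    have h2 := (abs_le.1 (hfund (z a) hw a M (hMs a le_rfl (by omega)))).2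
    have h3 : (rc (z a) a M : ℝ) ≤ (1 + δ) * (M / MM (z a)) := by linarith
    have h5 : (M : ℝ) / MM (z a) ≤ M / ((1 - δ) * X) :=
      div_le_div_of_nonneg_left hM0.le (mul_pos (by linarith) hX0) h4
    have h6 : (rc (z a) a M : ℝ) ≤ (1 + δ) * (M / ((1 - δ) * X)) :=
      h3.trans (mul_le_mul_of_nonneg_left h5 (by linarith))
    have h7 : 0 < 1 - δ := by linarith
    calc (((range M).filter (fun k => Free (z a) (a + k + 1))).card : ℝ) * ((1 + δ) * (1 + 3 * δ) * X / L)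
        ≤ ((1 + δ) * (M / ((1 - δ) * X))) * ((1 + δ) * (1 + 3 * δ) * X / L) :=
          mul_le_mul_of_nonneg_right h6 (by positivity)
      _ = ((1 + δ) ^ 2 * (1 + 3 * δ) / (1 - δ)) * (M / L) := by
          field_simp
      _ ≤ (1 + 12 * δ) * (M / L) := by
          apply mul_le_mul_of_nonneg_right _ hT0.le
          rw [div_le_iff₀ h7]
          nlinarith [mul_pos hδ0 hδ0, mul_nonneg (mul_pos hδ0 hδ0).le (show 0 ≤ 1 / 8 - δ by linarith)]
  -- lower bound
  have hlo : (1 - 12 * δ) * (M / L) ≤ ∑ k ∈ range M, D (a + k) := by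
    have h1 : ∀ k ∈ range M, (if Free (z (3 * a)) (a + k + 1) then (1 - δ) ^ 2 * X / ((1 + δ) * L) else 0) ≤ D (a + k) := by
      intro k hk
      have hk := mem_range.1 hk
      split_ifs with hf
      · have hf' : Free (z (a + k + 1)) (a + k + 1) := hf.anti (hmono (by omega))
        obtain ⟨-, -, -, h3, -, -⟩ := hu (a + k + 1) (by omega) (by omega)
        obtain ⟨-, h5a, h5, -, -, -⟩ := hu (a + k) (by omega) (by omega)
        have h6 := (hDb k hk hf').1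
        rw [div_le_iff₀ (by positivity)]
        calc (1 - δ) ^ 2 * X = (1 - δ) * ((1 - δ) * X) := by ring
          _ ≤ (1 - δ) * MM (z (a + k + 1)) := mul_le_mul_of_nonneg_left h3 (by linarith)
          _ ≤ D (a + k) * Real.log ((a + k : ℕ) : ℝ) := h6
          _ ≤ D (a + k) * ((1 + δ) * L) := mul_le_mul_of_nonneg_left h5 (hD0 _)
      · exact hD0 _
    refine le_trans ?_ (sum_le_sum h1)
    rw [← sum_filter, sum_const, nsmul_eq_mul]
    obtain ⟨hw, -, -, -, h4, -⟩ := hu (3 * a) (by omega) (by omega)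
    have h2 := (abs_le.1 (hfund (z (3 * a)) hw a M (hMs (3 * a) (by omega) (by omega)))).1
    have h3 : (1 - δ) * (M / MM (z (3 * a))) ≤ (rc (z (3 * a)) a M : ℝ) := by linarith
    have h5 : (M : ℝ) / ((1 + 3 * δ) * X) ≤ M / MM (z (3 * a)) :=
      div_le_div_of_nonneg_left hM0.le (MM_pos _) h4
    have h6 : (1 - δ) * (M / ((1 + 3 * δ) * X)) ≤ (rc (z (3 * a)) a M : ℝ) :=
      le_trans (mul_le_mul_of_nonneg_left h5 (by linarith)) h3
    have h7 : 0 < 1 + δ := by linarith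
    have h8 : 0 < 1 + 3 * δ := by linarith
    calc (1 - 12 * δ) * (M / L) ≤ ((1 - δ) ^ 3 / ((1 + δ) * (1 + 3 * δ))) * (M / L) := by
          apply mul_le_mul_of_nonneg_right _ hT0.le
          rw [le_div_iff₀ (by positivity)]
          nlinarith [mul_pos hδ0 hδ0, mul_pos (mul_pos hδ0 hδ0) hδ0]
      _ = ((1 - δ) * (M / ((1 + 3 * δ) * X))) * ((1 - δ) ^ 2 * X / ((1 + δ) * L)) := by
          field_simp
      _ ≤ (((range M).filter (fun k => Free (z (3 * a)) (a + k + 1))).card : ℝ) * ((1 - δ) ^ 2 * X / ((1 + δ) * L)) :=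
          mul_le_mul_of_nonneg_right h6 (by positivity)
  rw [abs_le]
  have h9 : 12 * δ * (M / L) ≤ ε * (M / L) := mul_le_mul_of_nonneg_right hδε hT0.le
  constructor <;> linarith

variable {Ω : Type} {m0 : MeasurableSpace Ω} {μ : Measure Ω} [IsProbabilityMeasure μ]
  {ℱ : Filtration ℕ m0} {A : ℕ → Set Ω}

lemma dens_empty {n : ℕ} (h : A (n + 1) = ∅) (ω : Ω) : dens μ ℱ A n ω = 0 := by
  unfold Pool.Agent.R528.RM.dens
  rw [h, Set.indicator_empty]
  have : μ[(fun _ : Ω => (0 : ℝ)) | ℱ n] = 0 := condExp_zero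
  rw [this]
  rfl

/-- the law for integer intervals -/
theorem nat_law (hA : ∀ n, MeasurableSet[ℱ n] (A n)) {z : ℕ → ℕ} (hmono : Monotone z) {θ : ℝ} (hθ : 0 < θ)
    (hz : Tendsto (fun n : ℕ => Real.log (z n) / Real.log (Real.log n)) atTop (𝓝 θ))
    (hcop : ∀ n, ¬ Free (z n) n → A n = ∅)
    (hd : ∀ᵐ ω ∂μ, Tendsto (fun n : ℕ => dens μ ℱ A n ω * Real.log n / MM (z (n + 1)))
      (atTop ⊓ 𝓟 {n | Free (z (n + 1)) (n + 1)}) (𝓝 1)) {ε : ℝ} (hε : 0 < ε) :
    ∃ K : ℕ, ∀ᵐ ω ∂μ, ∀ᶠ a : ℕ in atTop, ∀ M : ℕ, Real.log a ^ K ≤ M → M ≤ 2 * a →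
      |NN A a M ω - M / Real.log a| ≤ ε * (M / Real.log a) := by
  obtain ⟨δ, hδ0, hδ1, hδε⟩ : ∃ δ : ℝ, 0 < δ ∧ δ ≤ 1 ∧ 4 * δ ≤ ε := by
    refine ⟨min 1 (ε / 4), lt_min one_pos (by positivity), min_le_left _ _, ?_⟩
    have := min_le_right 1 (ε / 4)
    linarith
  obtain ⟨K, hK, hdet⟩ := det_main hmono hθ hz hδ0
  refine ⟨K, ?_⟩
  have h01 : ∀ᵐ ω ∂μ, ∀ n, 0 ≤ dens μ ℱ A n ω ∧ dens μ ℱ A n ω ≤ 1 := ae_all_iff.2 fun n => dens01 hA n
  filter_upwards [conc (μ := μ) hA, h01, hd] with ω h1 h2 h3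
  obtain ⟨C, hC, h4⟩ := h1 δ hδ0
  have h5 := hdet (fun n => dens μ ℱ A n ω) (fun n => (h2 n).1) (fun n hn => dens_empty (hcop _ hn) ω) h3
  have hL : Tendsto (fun n : ℕ => Real.log (n : ℝ)) atTop atTop :=
    Real.tendsto_log_atTop.comp tendsto_natCast_atTop_atTop
  filter_upwards [h4, h5, hL.eventually_ge_atTop 1, hL.eventually_ge_atTop (C / δ)] with a h4 h5 h6 h7 M hM1 hM2
  have g1 := h4 M hM2
  have g2 : |DS μ ℱ A a M ω - M / Real.log a| ≤ δ * (M / Real.log a) := h5 M hM1 hM2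
  obtain ⟨T, hT⟩ : ∃ T : ℝ, T = M / Real.log a := ⟨_, rfl⟩
  have hL0 : 0 < Real.log (a : ℝ) := by linarith
  have hT1 : Real.log a ^ 2 ≤ T := by
    rw [hT, le_div_iff₀ hL0, ← pow_succ]
    exact (pow_le_pow_right₀ h6 hK).trans hM1
  have hCT : C * Real.log a ≤ δ * T := by
    rw [div_le_iff₀ hδ0] at h7
    calc C * Real.log a ≤ (Real.log a * δ) * Real.log a := mul_le_mul_of_nonneg_right h7 hL0.le
      _ = δ * Real.log a ^ 2 := by ring
      _ ≤ δ * T := mul_le_mul_of_nonneg_left hT1 hδ0.le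
  rw [← hT] at g2 ⊢
  have hT0 : 0 ≤ T := le_trans (by positivity) hT1
  have g3 := abs_le.1 g1
  have g4 := abs_le.1 g2
  have g5 : δ * DS μ ℱ A a M ω ≤ δ * (2 * T) := by
    apply mul_le_mul_of_nonneg_left _ hδ0.le
    have : δ * T ≤ 1 * T := mul_le_mul_of_nonneg_right hδ1 hT0
    linarith [g4.2]
  have g6 : 4 * δ * T ≤ ε * T := mul_le_mul_of_nonneg_right hδε hT0
  rw [abs_le]
  constructor <;> linarith [g3.1, g3.2, g4.1, g4.2]

lemma cnt_eq_NN (a M : ℕ) (ω : Ω) : (cnt A a M ω : ℝ) = NN A a M ω := by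
  classical
  unfold cnt NN
  push_cast
  refine sum_congr rfl fun k _ => ?_
  rw [show a + 1 + k = a + k + 1 by omega]
  by_cases h : ω ∈ A (a + k + 1)
  · rw [if_pos h, Set.indicator_of_mem h]
  · rw [if_neg h, Set.indicator_of_notMem h]

/-- the law for real intervals -/
theorem real_law (hA : ∀ n, MeasurableSet[ℱ n] (A n)) {z : ℕ → ℕ} (hmono : Monotone z) {θ : ℝ} (hθ : 0 < θ)
    (hz : Tendsto (fun n : ℕ => Real.log (z n) / Real.log (Real.log n)) atTop (𝓝 θ))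
    (hcop : ∀ n, ¬ Free (z n) n → A n = ∅)
    (hd : ∀ᵐ ω ∂μ, Tendsto (fun n : ℕ => dens μ ℱ A n ω * Real.log n / MM (z (n + 1)))
      (atTop ⊓ 𝓟 {n | Free (z (n + 1)) (n + 1)}) (𝓝 1)) {ε : ℝ} (hε : 0 < ε) :
    ∃ K : ℕ, ∀ᵐ ω ∂μ, ∀ᶠ x : ℝ in atTop, ∀ H : ℝ, Real.log x ^ K ≤ H → H ≤ x →
      |(cntR (rset A ω) x H : ℝ) / (H / Real.log x) - 1| ≤ ε := by
  obtain ⟨δ, hδ0, hδ1, hδε⟩ : ∃ δ : ℝ, 0 < δ ∧ δ ≤ 1 ∧ 7 * δ ≤ ε := by
    refine ⟨min 1 (ε / 7), lt_min one_pos (by positivity), min_le_left _ _, ?_⟩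
    have := min_le_right 1 (ε / 7)
    linarith
  obtain ⟨K, hK⟩ := nat_law (μ := μ) hA hmono hθ hz hcop hd hδ0
  refine ⟨K + 1, ?_⟩
  filter_upwards [hK] with ω hω
  filter_upwards [tendsto_nat_floor_atTop.eventually hω, eventually_ge_atTop 8,
    Real.tendsto_log_atTop.eventually_ge_atTop 2, Real.tendsto_log_atTop.eventually_ge_atTop (1 / δ),
    log_floor_ratio.eventually (ge_mem_nhds (show (1 : ℝ) < 1 + δ by linarith))] with x h1 hx hl2 hlδ hr H hH1 hH2
  have hl0 : 0 < Real.log x := by linarith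
  have hH0 : Real.log x ≤ H := by
    refine le_trans ?_ hH1
    exact le_self_pow₀ (by linarith) (by omega)
  have hHpos : 0 < H := by linarith
  set n := ⌊x⌋₊ with hn
  set m := ⌊x + H⌋₊ with hm
  have hnx : (n : ℝ) ≤ x := Nat.floor_le (by linarith)
  have hnx' : x < n + 1 := Nat.lt_floor_add_one x
  have hmx : (m : ℝ) ≤ x + H := Nat.floor_le (by linarith)
  have hmx' : x + H < m + 1 := Nat.lt_floor_add_one (x + H)
  have hnm : n ≤ m := Nat.floor_mono (by linarith)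
  obtain ⟨M, hM⟩ : ∃ M, M = m - n := ⟨_, rfl⟩
  have hMr : (M : ℝ) = m - n := by rw [hM, Nat.cast_sub hnm]
  have hM1 : (M : ℝ) ≤ H + 1 := by rw [hMr]; linarith
  have hM2 : H - 1 ≤ (M : ℝ) := by rw [hMr]; linarith
  have hM3 : M ≤ 2 * n := by
    have : (M : ℝ) ≤ ((2 * n : ℕ) : ℝ) := by push_cast; linarith
    exact_mod_cast this
  have hn0 : (1 : ℝ) < n := by linarith
  have hln : 0 < Real.log (n : ℝ) := Real.log_pos hn0
  have hlnx : Real.log (n : ℝ) ≤ Real.log x := Real.log_le_log (by linarith) hnx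
  have hM4 : Real.log (n : ℝ) ^ K ≤ M := by
    have g1 : Real.log (n : ℝ) ^ K ≤ Real.log x ^ K := pow_le_pow_left₀ hln.le hlnx K
    have g2 : 1 ≤ Real.log x ^ K := one_le_pow₀ (by linarith)
    have g3 : 2 * Real.log x ^ K ≤ Real.log x ^ (K + 1) := by
      rw [pow_succ, mul_comm]
      exact mul_le_mul_of_nonneg_left hl2 (by positivity)
    linarith
  have h2 := h1 M hM4 hM3
  rw [cntR_eq (by linarith) hHpos.le, ← hn, ← hm, ← hM, cnt_eq_NN]
  obtain ⟨N, hN⟩ : ∃ N, N = NN A n M ω := ⟨_, rfl⟩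
  rw [← hN] at h2 ⊢
  have h3 := abs_le.1 h2
  have hN1 : N ≤ (1 + δ) * (M / Real.log n) := by linarith [h3.2]
  have hN2 : (1 - δ) * (M / Real.log n) ≤ N := by linarith [h3.1]
  have hδH : 1 ≤ δ * H := by
    rw [div_le_iff₀ hδ0] at hlδ
    nlinarith
  have hr' : Real.log x ≤ (1 + δ) * Real.log n := by
    have h5 : Real.log x / Real.log ⌊x⌋₊ ≤ 1 + δ := hr
    rwa [← hn, div_le_iff₀ hln] at h5
  rw [abs_le]
  constructor
  · have g1 : 1 - 2 * δ ≤ N / (H / Real.log x) := by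
      rw [le_div_iff₀ (by positivity)]
      refine le_trans ?_ hN2
      have g2 : (1 - δ) * H ≤ M := by linarith
      have g3 : (1 - δ) * H / Real.log x ≤ M / Real.log n := by
        refine (div_le_div_of_nonneg_right g2 hl0.le).trans ?_
        exact div_le_div_of_nonneg_left (Nat.cast_nonneg _) hln hlnx
      have g4 : (1 - δ) * ((1 - δ) * H / Real.log x) ≤ (1 - δ) * (M / Real.log n) :=
        mul_le_mul_of_nonneg_left g3 (by linarith)
      refine le_trans ?_ g4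
      have g5 : 0 ≤ H / Real.log x := by positivity
      have e : (1 - δ) * ((1 - δ) * H / Real.log x) = (1 - δ) ^ 2 * (H / Real.log x) := by ring
      rw [e]
      apply mul_le_mul_of_nonneg_right _ g5
      nlinarith
    linarith
  · have g1 : N / (H / Real.log x) ≤ 1 + 7 * δ := by
      rw [div_le_iff₀ (by positivity)]
      refine hN1.trans ?_
      have g2 : (M : ℝ) ≤ (1 + δ) * H := by linarith
      have g3 : (M : ℝ) / Real.log n ≤ (1 + δ) * H * ((1 + δ) / Real.log x) := by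
        have g4 : 1 / Real.log (n : ℝ) ≤ (1 + δ) / Real.log x := by
          rw [div_le_div_iff₀ hln hl0, one_mul]
          exact hr'
        calc (M : ℝ) / Real.log n = M * (1 / Real.log n) := by ring
          _ ≤ ((1 + δ) * H) * ((1 + δ) / Real.log x) := mul_le_mul g2 g4 (by positivity) (by positivity)
      have g5 : 0 ≤ H / Real.log x := by positivity
      calc (1 + δ) * (M / Real.log n) ≤ (1 + δ) * ((1 + δ) * H * ((1 + δ) / Real.log x)) :=
            mul_le_mul_of_nonneg_left g3 (by linarith)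
        _ = (1 + δ) ^ 3 * (H / Real.log x) := by ring
        _ ≤ (1 + 7 * δ) * (H / Real.log x) := by
            apply mul_le_mul_of_nonneg_right _ g5
            nlinarith [mul_pos hδ0 hδ0, mul_nonneg (mul_pos hδ0 hδ0).le (show 0 ≤ 1 - δ by linarith)]
    linarith

end Pool.Agent.R301.GM
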