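import Mathlib
import Pool.Agent.R301.GM.Main
import Pool.Agent.R301.GM.Irr2

set_option autoImplicit false
set_option linter.unusedSectionVars false

/-! # Sieved random models: irregularities in intervals of length a power of the logarithm -/

open Finset Filter MeasureTheory
open scoped Topology

namespace Pool.Agent.R301.GM

open Pool.Agent.R528.RM
open Pool.Agent.R529.BU (om)

/-- the sums of the densities -/
theorem ds_bounds {z : ℕ → ℕ} (hmono : Monotone z) {θ : ℝ} (hθ : 0 < θ)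
    (hz : Tendsto (fun n : ℕ => Real.log (z n) / Real.log (Real.log n)) atTop (𝓝 θ))
    {δ : ℝ} (hδ0 : 0 < δ) (hδ1 : δ ≤ 1)
    {D : ℕ → ℝ} (hD0 : ∀ n, 0 ≤ D n) (hDz : ∀ n, ¬ Free (z (n + 1)) (n + 1) → D n = 0)
    (hD : Tendsto (fun n : ℕ => D n * Real.log n / MM (z (n + 1)))
        (atTop ⊓ 𝓟 {n | Free (z (n + 1)) (n + 1)}) (𝓝 1)) :
    ∀ᶠ X : ℕ in atTop, ∀ x M : ℕ, X ≤ x → x + M ≤ 3 * X →
      ∑ k ∈ range M, D (x + k) ≤
        (1 + δ) * (1 + 3 * δ) * (eg * θ * Real.log (Real.log X)) / Real.log X * rc (z X) x M ∧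
      (1 - δ) ^ 2 * (eg * θ * Real.log (Real.log X)) / ((1 + δ) * Real.log X) * rc (z (3 * X)) x M ≤
        ∑ k ∈ range M, D (x + k) := by
  classical
  have hev := hD.eventually (Metric.ball_mem_nhds 1 hδ0)
  rw [eventually_inf_principal] at hev
  obtain ⟨n₁, hn₁⟩ := eventually_atTop.1 hev
  filter_upwards [unif_facts hθ hz 0 hδ0 hδ1, eventually_ge_atTop (max n₁ 1)] with X hu hX x M hx hxM
  obtain ⟨hLa, hX0, hu⟩ := hu
  have hXn₁ : n₁ ≤ X := (le_max_left _ _).trans hX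
  have hX1 : 1 ≤ X := (le_max_right _ _).trans hX
  obtain ⟨Y, hY⟩ : ∃ Y : ℝ, Y = eg * θ * Real.log (Real.log X) := ⟨_, rfl⟩
  have hYe : Real.exp Real.eulerMascheroniConstant * θ * Real.log (Real.log X) = Y := by rw [hY]; rfl
  rw [hYe] at hX0 hu
  rw [← hY]
  obtain ⟨L, hL⟩ : ∃ L : ℝ, L = Real.log X := ⟨_, rfl⟩
  rw [← hL] at hLa hu ⊢
  have hL0 : 0 < L := by linarith
  have hDb : ∀ k < M, Free (z (x + k + 1)) (x + k + 1) →
      (1 - δ) * MM (z (x + k + 1)) ≤ D (x + k) * Real.log ((x + k : ℕ) : ℝ) ∧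
        D (x + k) * Real.log ((x + k : ℕ) : ℝ) ≤ (1 + δ) * MM (z (x + k + 1)) := by
    intro k _ hf
    have h1 : D (x + k) * Real.log ((x + k : ℕ) : ℝ) / MM (z (x + k + 1)) ∈ Metric.ball (1 : ℝ) δ :=
      hn₁ (x + k) (by omega) hf
    rw [Metric.mem_ball, Real.dist_eq, abs_lt] at h1
    have h2 := MM_pos (z (x + k + 1))
    constructor
    · have : 1 - δ ≤ D (x + k) * Real.log ((x + k : ℕ) : ℝ) / MM (z (x + k + 1)) := by linarith [h1.1]
      rwa [le_div_iff₀ h2] at this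
    · have : D (x + k) * Real.log ((x + k : ℕ) : ℝ) / MM (z (x + k + 1)) ≤ 1 + δ := by linarith [h1.2]
      rwa [div_le_iff₀ h2] at this
  constructor
  · have h1 : ∀ k ∈ range M, D (x + k) ≤ if Free (z X) (x + k + 1) then (1 + δ) * (1 + 3 * δ) * Y / L else 0 := by
      intro k hk
      have hk := mem_range.1 hk
      by_cases hf : Free (z (x + k + 1)) (x + k + 1)
      · rw [if_pos (hf.anti (hmono (by omega)))]
        obtain ⟨-, -, -, -, h3, -⟩ := hu (x + k + 1) (by omega) (by omega)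
        obtain ⟨-, h5, -, -, -, -⟩ := hu (x + k) (by omega) (by omega)
        have h6 := (hDb k hk hf).2
        rw [le_div_iff₀ hL0]
        calc D (x + k) * L ≤ D (x + k) * Real.log ((x + k : ℕ) : ℝ) :=
              mul_le_mul_of_nonneg_left h5 (hD0 _)
          _ ≤ (1 + δ) * MM (z (x + k + 1)) := h6
          _ ≤ (1 + δ) * ((1 + 3 * δ) * Y) := mul_le_mul_of_nonneg_left h3 (by linarith)
          _ = _ := by ring
      · rw [hDz _ hf]
        split_ifs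
        · positivity
        · exact le_rfl
    refine (sum_le_sum h1).trans (le_of_eq ?_)
    rw [← sum_filter, sum_const, nsmul_eq_mul, mul_comm]
    rfl
  · have h1 : ∀ k ∈ range M, (if Free (z (3 * X)) (x + k + 1) then (1 - δ) ^ 2 * Y / ((1 + δ) * L) else 0) ≤ D (x + k) := by
      intro k hk
      have hk := mem_range.1 hk
      split_ifs with hf
      · have hf' : Free (z (x + k + 1)) (x + k + 1) := hf.anti (hmono (by omega))
        obtain ⟨-, -, -, h3, -, -⟩ := hu (x + k + 1) (by omega) (by omega)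
        obtain ⟨-, h5a, h5, -, -, -⟩ := hu (x + k) (by omega) (by omega)
        have h6 := (hDb k hk hf').1
        rw [div_le_iff₀ (by positivity)]
        calc (1 - δ) ^ 2 * Y = (1 - δ) * ((1 - δ) * Y) := by ring
          _ ≤ (1 - δ) * MM (z (x + k + 1)) := mul_le_mul_of_nonneg_left h3 (by linarith)
          _ ≤ D (x + k) * Real.log ((x + k : ℕ) : ℝ) := h6
          _ ≤ D (x + k) * ((1 + δ) * L) := mul_le_mul_of_nonneg_left h5 (hD0 _)
      · exact hD0 _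
    refine le_trans (le_of_eq ?_) (sum_le_sum h1)
    rw [← sum_filter, sum_const, nsmul_eq_mul, mul_comm]
    rfl

variable {Ω : Type} {m0 : MeasurableSpace Ω} {μ : Measure Ω} [IsProbabilityMeasure μ]
  {ℱ : Filtration ℕ m0} {A : ℕ → Set Ω}

lemma cntR_nat (x : ℕ) {H : ℝ} (hH : 0 ≤ H) (ω : Ω) : (cntR (rset A ω) x H : ℝ) = NN A x ⌊H⌋₊ ω := by
  rw [cntR_eq (Nat.cast_nonneg _) hH, Nat.floor_natCast, cnt_eq_NN]
  congr 1
  rw [add_comm, Nat.floor_add_natCast hH]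
  omega

/-- facts on the scale -/
lemma scale_facts {a δ C : ℝ} (ha : 3 ≤ a) (hδ : 0 < δ) : ∀ᶠ X : ℕ in atTop, ∀ x : ℕ, X ≤ x → x ≤ 2 * X →
    0 < Real.log (X : ℝ) ∧ Real.log (X : ℝ) ≤ Real.log x ∧ Real.log (x : ℝ) ≤ (1 + δ) * Real.log X ∧
    Real.log (X : ℝ) ^ a ≤ Real.log (x : ℝ) ^ a ∧ Real.log (x : ℝ) ^ a ≤ (1 + δ) * Real.log (X : ℝ) ^ a ∧
    x + ⌊Real.log (x : ℝ) ^ a⌋₊ ≤ 3 * X ∧ Real.log (x : ℝ) / Real.log (x : ℝ) ^ a * (C * Real.log x) ≤ δ := by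
  have hL : Tendsto (fun n : ℕ => Real.log (n : ℝ)) atTop atTop :=
    Real.tendsto_log_atTop.comp tendsto_natCast_atTop_atTop
  have h1 : Tendsto (fun L : ℝ => (L + 1) ^ a / L ^ a) atTop (𝓝 1) := by
    have h1 : Tendsto (fun L : ℝ => 1 + 1 * L⁻¹) atTop (𝓝 (1 + 1 * 0)) :=
      (tendsto_inv_atTop_zero.const_mul 1).const_add 1
    rw [mul_zero, add_zero] at h1
    have h2 := h1.rpow_const (p := a) (Or.inl one_ne_zero)
    rw [Real.one_rpow] at h2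
    refine h2.congr' ?_
    filter_upwards [eventually_gt_atTop 0] with L hL
    rw [← Real.div_rpow (by linarith) hL.le]
    congr 1
    field_simp
  have h2 : ∀ᶠ X : ℕ in atTop, 2 * Real.log (X : ℝ) ^ a ≤ X := by
    have := (isLittleO_log_rpow_rpow_atTop a (show (0 : ℝ) < 1 by norm_num)).def (show (0 : ℝ) < 1 / 2 by norm_num)
    have h3 := (tendsto_natCast_atTop_atTop (R := ℝ)).eventually this
    filter_upwards [h3, eventually_ge_atTop 1] with x hx hx1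
    have hl := Real.log_natCast_nonneg x
    rw [Real.norm_of_nonneg (Real.rpow_nonneg hl _), Real.rpow_one, Real.norm_of_nonneg (Nat.cast_nonneg _)] at hx
    linarith
  filter_upwards [hL.eventually_ge_atTop 1, hL.eventually_ge_atTop (1 / δ), hL.eventually_ge_atTop (|C| / δ),
    hL.eventually (h1.eventually (gt_mem_nhds (show (1 : ℝ) < 1 + δ by linarith))),
    hL.eventually (h1.eventually (gt_mem_nhds (show (1 : ℝ) < 2 by norm_num))), h2, eventually_ge_atTop 1]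
    with X g1 g2 g3 g4 g5 g6 hX1 x hx1 hx2
  have hX0 : (0 : ℝ) < X := by exact_mod_cast hX1
  have hx1' : (X : ℝ) ≤ x := by exact_mod_cast hx1
  have hx2' : (x : ℝ) ≤ 2 * X := by exact_mod_cast hx2
  obtain ⟨L, hLd⟩ : ∃ L : ℝ, L = Real.log (X : ℝ) := ⟨_, rfl⟩
  rw [← hLd] at g1 g2 g3 g4 g5 g6 ⊢
  have hl1 : L ≤ Real.log (x : ℝ) := by rw [hLd]; exact Real.log_le_log hX0 hx1'
  have hl2 : Real.log (x : ℝ) ≤ L + 1 := by
    have g3 := Real.log_le_log (by linarith) hx2'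
    rw [Real.log_mul (by norm_num) hX0.ne', ← hLd] at g3
    have := Real.log_two_lt_d9
    linarith
  have hL0 : 0 < L := by linarith
  have hLa : 0 < L ^ a := Real.rpow_pos_of_pos hL0 _
  have hδL : 1 ≤ δ * L := by
    rw [div_le_iff₀ hδ] at g2
    linarith
  have hxa : Real.log (x : ℝ) ^ a ≤ (L + 1) ^ a := Real.rpow_le_rpow (by linarith) hl2 (by linarith)
  rw [div_lt_iff₀ hLa] at g4 g5
  refine ⟨hL0, hl1, by linarith, Real.rpow_le_rpow hL0.le hl1 (by linarith), hxa.trans g4.le, ?_, ?_⟩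
  · have h3 : (⌊Real.log (x : ℝ) ^ a⌋₊ : ℝ) ≤ X := by
      have := Nat.floor_le (Real.rpow_nonneg (hL0.le.trans hl1) a)
      linarith
    have h4 : ⌊Real.log (x : ℝ) ^ a⌋₊ ≤ X := by exact_mod_cast h3
    omega
  · obtain ⟨l, hl⟩ : ∃ l : ℝ, l = Real.log (x : ℝ) := ⟨_, rfl⟩
    rw [← hl] at hl1 ⊢
    have hl0 : 0 < l := by linarith
    have h3 : l ^ 3 ≤ l ^ a := by
      rw [← Real.rpow_natCast l 3]
      exact Real.rpow_le_rpow_of_exponent_le (by linarith) (by exact_mod_cast ha)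
    have h4 : l / l ^ a * (C * l) = C * l ^ 2 / l ^ a := by ring
    rw [h4, div_le_iff₀ (Real.rpow_pos_of_pos hl0 _)]
    have h5 : |C| ≤ δ * l := by
      rw [div_le_iff₀ hδ] at g3
      nlinarith
    calc C * l ^ 2 ≤ |C| * l ^ 2 := mul_le_mul_of_nonneg_right (le_abs_self C) (by positivity)
      _ ≤ (δ * l) * l ^ 2 := mul_le_mul_of_nonneg_right h5 (by positivity)
      _ = δ * l ^ 3 := by ring
      _ ≤ δ * l ^ a := mul_le_mul_of_nonneg_left h3 hδ.le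

/-- **intervals with few members** -/
theorem maier_low (hA : ∀ n, MeasurableSet[ℱ n] (A n)) {z : ℕ → ℕ} (hmono : Monotone z) {θ : ℝ} (hθ : 0 < θ)
    (hθ1 : θ ≤ 1)
    (hz : Tendsto (fun n : ℕ => Real.log (z n) / Real.log (Real.log n)) atTop (𝓝 θ))
    (hcop : ∀ n, ¬ Free (z n) n → A n = ∅)
    (hd : ∀ᵐ ω ∂μ, Tendsto (fun n : ℕ => dens μ ℱ A n ω * Real.log n / MM (z (n + 1)))
      (atTop ⊓ 𝓟 {n | Free (z (n + 1)) (n + 1)}) (𝓝 1))
    {u : ℝ} (hu : 1 < u) (hom : eg * om u < 1) (hu3 : 3 ≤ θ / 2 * u) :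
    ∃ a c : ℝ, θ / 2 * u ≤ a ∧ c < 1 ∧
      ∀ᵐ ω ∂μ, ∃ᶠ x : ℕ in atTop, Pool.Agent.R301.RM.RR (rset A ω) a x < c := by
  obtain ⟨a, c₀, ha, hc₀, hirr⟩ := irr_low hθ hθ1 hz hu hom
  obtain ⟨c, hc1, hc2⟩ := exists_between hc₀
  obtain ⟨δ, hδ0, hδ1, hδ⟩ : ∃ δ : ℝ, 0 < δ ∧ δ ≤ 1 / 2 ∧
      (1 + δ) ^ 3 * (1 + 3 * δ) / (1 - δ) * c₀ + δ < c := by
    have hcont : ContinuousAt (fun δ : ℝ => (1 + δ) ^ 3 * (1 + 3 * δ) / (1 - δ) * c₀ + δ) 0 := by
      have : (1 : ℝ) - 0 ≠ 0 := by norm_num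
      fun_prop (disch := assumption)
    have h0 : (fun δ : ℝ => (1 + δ) ^ 3 * (1 + 3 * δ) / (1 - δ) * c₀ + δ) 0 < c := by
      norm_num
      exact hc1
    have h1 := hcont.eventually (gt_mem_nhds h0)
    obtain ⟨e, he, hball⟩ := Metric.eventually_nhds_iff.1 h1
    refine ⟨min (e / 2) (1 / 2), lt_min (by positivity) (by norm_num), min_le_right _ _, ?_⟩
    apply hball
    rw [Real.dist_eq, sub_zero, abs_of_pos (lt_min (by positivity) (by norm_num))]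
    exact (min_le_left _ _).trans_lt (by linarith)
  refine ⟨a, c, ha, hc2, ?_⟩
  have h01 : ∀ᵐ ω ∂μ, ∀ n, 0 ≤ dens μ ℱ A n ω ∧ dens μ ℱ A n ω ≤ 1 := ae_all_iff.2 fun n => dens01 hA n
  filter_upwards [conc (μ := μ) hA, h01, hd] with ω h1 h2 h3
  obtain ⟨C, hC, h4⟩ := h1 δ hδ0
  have h5 := ds_bounds hmono hθ hz hδ0 (by linarith) (D := fun n => dens μ ℱ A n ω) (fun n => (h2 n).1)
    (fun n hn => dens_empty (hcop _ hn) ω) h3
  rw [frequently_atTop]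
  intro b
  obtain ⟨n₂, hn₂⟩ := eventually_atTop.1 h4
  obtain ⟨X, hX1, ⟨x, hx1, hx2, hx3⟩, hX3, hX4, hX5⟩ := ((eventually_ge_atTop (max b n₂)).and (hirr.and (h5.and
    ((scale_facts (a := a) (δ := δ) (C := C) (by linarith) hδ0).and (unif_facts hθ hz 0 hδ0 (by linarith)))))).exists
  obtain ⟨f1, f2, f3, f4, f5, f6, f7⟩ := hX4 x hx1 hx2
  refine ⟨x, (le_max_left _ _).trans (hX1.trans hx1), ?_⟩
  obtain ⟨M, hM⟩ : ∃ M, M = ⌊Real.log (x : ℝ) ^ a⌋₊ := ⟨_, rfl⟩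
  rw [← hM] at hx3 f6
  have g1 := (hX3 x M hx1 f6).1
  have g2 := hn₂ x ((le_max_right _ _).trans (hX1.trans hx1)) M (by omega)
  obtain ⟨-, hY0, hX5⟩ := hX5
  have g3 := (hX5 X le_rfl (by omega)).2.2.2.1
  obtain ⟨Y, hY⟩ : ∃ Y : ℝ, Y = eg * θ * Real.log (Real.log X) := ⟨_, rfl⟩
  have hYe : Real.exp Real.eulerMascheroniConstant * θ * Real.log (Real.log X) = Y := by rw [hY]; rfl
  rw [hYe] at hY0 g3
  rw [← hY] at g1
  obtain ⟨L, hL⟩ : ∃ L : ℝ, L = Real.log X := ⟨_, rfl⟩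
  obtain ⟨l, hl⟩ : ∃ l : ℝ, l = Real.log (x : ℝ) := ⟨_, rfl⟩
  rw [← hL] at f1 f2 f3 f4 f5 g1 hx3
  rw [← hl] at f2 f3 f4 f5 f7 g2
  have hl0 : 0 < l := by linarith
  have hla : 0 < l ^ a := Real.rpow_pos_of_pos hl0 _
  have hLa : 0 < L ^ a := Real.rpow_pos_of_pos f1 _
  obtain ⟨r, hr⟩ : ∃ r : ℝ, r = (rc (z X) x M : ℝ) := ⟨_, rfl⟩
  have hr0 : 0 ≤ r := by rw [hr]; positivity
  rw [← hr] at g1 hx3
  have hMz := MM_pos (z X)
  have hc₀0 : 0 ≤ c₀ := by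
    by_contra hcon
    push Not at hcon
    have : c₀ * L ^ a < 0 := mul_neg_of_neg_of_pos hcon hLa
    have := mul_nonneg hr0 hMz.le
    linarith
  have h1δ : 0 < 1 - δ := by linarith
  obtain ⟨S, hS⟩ : ∃ S : ℝ, S = DS μ ℱ A x M ω := ⟨_, rfl⟩
  have g1' : S ≤ (1 + δ) * (1 + 3 * δ) * Y / L * r := by rw [hS]; exact g1
  rw [← hS] at g2
  have g4 : S ≤ (1 + δ) * (1 + 3 * δ) / (1 - δ) * c₀ * (L ^ a / L) := by
    refine g1'.trans ?_
    have h6 : Y * r ≤ c₀ * L ^ a / (1 - δ) := by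
      rw [le_div_iff₀ h1δ]
      have := mul_le_mul_of_nonneg_left g3 hr0
      nlinarith
    calc (1 + δ) * (1 + 3 * δ) * Y / L * r = (1 + δ) * (1 + 3 * δ) / L * (Y * r) := by ring
      _ ≤ (1 + δ) * (1 + 3 * δ) / L * (c₀ * L ^ a / (1 - δ)) := mul_le_mul_of_nonneg_left h6 (by positivity)
      _ = _ := by ring
  have g5 : NN A x M ω ≤ (1 + δ) * S + C * l := by
    have := (abs_le.1 g2).2
    linarith
  unfold Pool.Agent.R301.RM.RR
  rw [← hl, cntR_nat x hla.le ω, hl, ← hM, ← hl]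
  refine lt_of_le_of_lt ?_ hδ
  calc l / l ^ a * NN A x M ω ≤ l / l ^ a * ((1 + δ) * S + C * l) := mul_le_mul_of_nonneg_left g5 (by positivity)
    _ = l / l ^ a * ((1 + δ) * S) + l / l ^ a * (C * l) := by ring
    _ ≤ l / l ^ a * ((1 + δ) * ((1 + δ) * (1 + 3 * δ) / (1 - δ) * c₀ * (L ^ a / L))) + δ := by
        apply add_le_add _ f7
        apply mul_le_mul_of_nonneg_left _ (by positivity)
        exact mul_le_mul_of_nonneg_left g4 (by linarith)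
    _ = (1 + δ) ^ 2 * (1 + 3 * δ) / (1 - δ) * c₀ * ((l / L) * (L ^ a / l ^ a)) + δ := by ring
    _ ≤ (1 + δ) ^ 2 * (1 + 3 * δ) / (1 - δ) * c₀ * ((1 + δ) * 1) + δ := by
        have e1 : l / L ≤ 1 + δ := by rw [div_le_iff₀ f1]; exact f3
        have e2 : L ^ a / l ^ a ≤ 1 := by rw [div_le_one hla]; exact f4
        have e3 : 0 ≤ L ^ a / l ^ a := by positivity
        have e4 : (l / L) * (L ^ a / l ^ a) ≤ (1 + δ) * 1 := mul_le_mul e1 e2 e3 (by linarith)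
        have e5 : 0 ≤ (1 + δ) ^ 2 * (1 + 3 * δ) / (1 - δ) * c₀ := by positivity
        have := mul_le_mul_of_nonneg_left e4 e5
        linarith
    _ = _ := by ring

/-- **intervals with many members** -/
theorem maier_high (hA : ∀ n, MeasurableSet[ℱ n] (A n)) {z : ℕ → ℕ} (hmono : Monotone z) {θ : ℝ} (hθ : 0 < θ)
    (hθ1 : θ ≤ 1)
    (hz : Tendsto (fun n : ℕ => Real.log (z n) / Real.log (Real.log n)) atTop (𝓝 θ))
    (hcop : ∀ n, ¬ Free (z n) n → A n = ∅)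
    (hd : ∀ᵐ ω ∂μ, Tendsto (fun n : ℕ => dens μ ℱ A n ω * Real.log n / MM (z (n + 1)))
      (atTop ⊓ 𝓟 {n | Free (z (n + 1)) (n + 1)}) (𝓝 1))
    {u : ℝ} (hu : 1 < u) (hom : 1 < eg * om u) (hu3 : 3 ≤ θ / 2 * u) :
    ∃ a c : ℝ, θ / 2 * u ≤ a ∧ 1 < c ∧
      ∀ᵐ ω ∂μ, ∃ᶠ x : ℕ in atTop, c < Pool.Agent.R301.RM.RR (rset A ω) a x := by
  obtain ⟨a, c₀, ha, hc₀, hirr⟩ := irr_high hmono hθ hθ1 hz hu hom
  obtain ⟨c, hc1, hc2⟩ := exists_between hc₀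
  obtain ⟨δ, hδ0, hδ1, hδ⟩ : ∃ δ : ℝ, 0 < δ ∧ δ ≤ 1 / 2 ∧
      c < (1 - δ) ^ 3 / ((1 + δ) ^ 2 * (1 + 3 * δ)) * c₀ - δ := by
    have hcont : ContinuousAt (fun δ : ℝ => (1 - δ) ^ 3 / ((1 + δ) ^ 2 * (1 + 3 * δ)) * c₀ - δ) 0 := by
      have : (1 + (0 : ℝ)) ^ 2 * (1 + 3 * 0) ≠ 0 := by norm_num
      fun_prop (disch := assumption)
    have h0 : c < (fun δ : ℝ => (1 - δ) ^ 3 / ((1 + δ) ^ 2 * (1 + 3 * δ)) * c₀ - δ) 0 := by
      norm_num
      exact hc2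
    have h1 := hcont.eventually (lt_mem_nhds h0)
    obtain ⟨e, he, hball⟩ := Metric.eventually_nhds_iff.1 h1
    refine ⟨min (e / 2) (1 / 2), lt_min (by positivity) (by norm_num), min_le_right _ _, ?_⟩
    apply hball
    rw [Real.dist_eq, sub_zero, abs_of_pos (lt_min (by positivity) (by norm_num))]
    exact (min_le_left _ _).trans_lt (by linarith)
  refine ⟨a, c, ha, hc1, ?_⟩
  have h01 : ∀ᵐ ω ∂μ, ∀ n, 0 ≤ dens μ ℱ A n ω ∧ dens μ ℱ A n ω ≤ 1 := ae_all_iff.2 fun n => dens01 hA n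
  filter_upwards [conc (μ := μ) hA, h01, hd] with ω h1 h2 h3
  obtain ⟨C, hC, h4⟩ := h1 δ hδ0
  have h5 := ds_bounds hmono hθ hz hδ0 (by linarith) (D := fun n => dens μ ℱ A n ω) (fun n => (h2 n).1)
    (fun n hn => dens_empty (hcop _ hn) ω) h3
  rw [frequently_atTop]
  intro b
  obtain ⟨n₂, hn₂⟩ := eventually_atTop.1 h4
  obtain ⟨X, hX1, ⟨x, hx1, hx2, hx3⟩, hX3, hX4, hX5⟩ := ((eventually_ge_atTop (max b n₂)).and (hirr.and (h5.and
    ((scale_facts (a := a) (δ := δ) (C := C) (by linarith) hδ0).and (unif_facts hθ hz 0 hδ0 (by linarith)))))).exists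
  obtain ⟨f1, f2, f3, f4, f5, f6, f7⟩ := hX4 x hx1 hx2
  refine ⟨x, (le_max_left _ _).trans (hX1.trans hx1), ?_⟩
  obtain ⟨M, hM⟩ : ∃ M, M = ⌊Real.log (x : ℝ) ^ a⌋₊ := ⟨_, rfl⟩
  rw [← hM] at hx3 f6
  have g1 := (hX3 x M hx1 f6).2
  have g2 := hn₂ x ((le_max_right _ _).trans (hX1.trans hx1)) M (by omega)
  obtain ⟨-, hY0, hX5⟩ := hX5
  have g3 := (hX5 (3 * X) (by omega) (by omega)).2.2.2.2.1
  obtain ⟨Y, hY⟩ : ∃ Y : ℝ, Y = eg * θ * Real.log (Real.log X) := ⟨_, rfl⟩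
  have hYe : Real.exp Real.eulerMascheroniConstant * θ * Real.log (Real.log X) = Y := by rw [hY]; rfl
  rw [hYe] at hY0 g3
  rw [← hY] at g1
  obtain ⟨L, hL⟩ : ∃ L : ℝ, L = Real.log X := ⟨_, rfl⟩
  obtain ⟨l, hl⟩ : ∃ l : ℝ, l = Real.log (x : ℝ) := ⟨_, rfl⟩
  rw [← hL] at f1 f2 f3 f4 f5 g1 hx3
  rw [← hl] at f2 f3 f4 f5 f7 g2
  have hl0 : 0 < l := by linarith
  have hla : 0 < l ^ a := Real.rpow_pos_of_pos hl0 _
  have hLa : 0 < L ^ a := Real.rpow_pos_of_pos f1 _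
  obtain ⟨r, hr⟩ : ∃ r : ℝ, r = (rc (z (3 * X)) x M : ℝ) := ⟨_, rfl⟩
  have hr0 : 0 ≤ r := by rw [hr]; positivity
  rw [← hr] at g1 hx3
  have hMz := MM_pos (z (3 * X))
  have h1δ : 0 < 1 - δ := by linarith
  have h3δ : 0 < 1 + 3 * δ := by linarith
  obtain ⟨S, hS⟩ : ∃ S : ℝ, S = DS μ ℱ A x M ω := ⟨_, rfl⟩
  have g1' : (1 - δ) ^ 2 * Y / ((1 + δ) * L) * r ≤ S := by rw [hS]; exact g1
  rw [← hS] at g2
  have g4 : (1 - δ) ^ 2 / ((1 + δ) * (1 + 3 * δ)) * c₀ * (L ^ a / L) ≤ S := by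
    refine le_trans ?_ g1'
    have h6 : c₀ * L ^ a / (1 + 3 * δ) ≤ Y * r := by
      rw [div_le_iff₀ h3δ]
      have := mul_le_mul_of_nonneg_left g3 hr0
      nlinarith
    calc (1 - δ) ^ 2 / ((1 + δ) * (1 + 3 * δ)) * c₀ * (L ^ a / L) =
          (1 - δ) ^ 2 / ((1 + δ) * L) * (c₀ * L ^ a / (1 + 3 * δ)) := by
          field_simp
      _ ≤ (1 - δ) ^ 2 / ((1 + δ) * L) * (Y * r) := mul_le_mul_of_nonneg_left h6 (by positivity)
      _ = _ := by ring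
  have g5 : (1 - δ) * S - C * l ≤ NN A x M ω := by
    have := (abs_le.1 g2).1
    linarith
  unfold Pool.Agent.R301.RM.RR
  rw [← hl, cntR_nat x hla.le ω, hl, ← hM, ← hl]
  refine lt_of_lt_of_le hδ ?_
  calc (1 - δ) ^ 3 / ((1 + δ) ^ 2 * (1 + 3 * δ)) * c₀ - δ =
        (1 - δ) ^ 3 / ((1 + δ) * (1 + 3 * δ)) * c₀ * (1 * (1 / (1 + δ))) - δ := by
          field_simp
    _ ≤ (1 - δ) ^ 3 / ((1 + δ) * (1 + 3 * δ)) * c₀ * ((l / L) * (L ^ a / l ^ a)) - δ := by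
        have e1 : 1 ≤ l / L := by rw [one_le_div f1]; exact f2
        have e2 : 1 / (1 + δ) ≤ L ^ a / l ^ a := by
          rw [div_le_div_iff₀ (by linarith) hla]
          linarith
        have e4 : 1 * (1 / (1 + δ)) ≤ (l / L) * (L ^ a / l ^ a) :=
          mul_le_mul e1 e2 (by positivity) (by positivity)
        have e5 : 0 ≤ (1 - δ) ^ 3 / ((1 + δ) * (1 + 3 * δ)) * c₀ := by
          have : 0 ≤ c₀ := by linarith
          positivity
        have := mul_le_mul_of_nonneg_left e4 e5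
        linarith
    _ = l / l ^ a * ((1 - δ) * ((1 - δ) ^ 2 / ((1 + δ) * (1 + 3 * δ)) * c₀ * (L ^ a / L))) - δ := by
        ring
    _ ≤ l / l ^ a * ((1 - δ) * S) - l / l ^ a * (C * l) := by
        apply sub_le_sub _ f7
        apply mul_le_mul_of_nonneg_left _ (by positivity)
        exact mul_le_mul_of_nonneg_left g4 h1δ.le
    _ = l / l ^ a * ((1 - δ) * S - C * l) := by ring
    _ ≤ l / l ^ a * NN A x M ω := mul_le_mul_of_nonneg_left g5 (by positivity)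

end Pool.Agent.R301.GM
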