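import Mathlib
import Pool.Agent.R301.GM.Maier
import Pool.Agent.R301.GM.Mono

set_option autoImplicit false
set_option linter.unusedSectionVars false

/-! # Sieved random models: the lower and upper limits for all exponents -/

open Finset Filter MeasureTheory
open scoped Topology ENNReal

namespace Pool.Agent.R301.GM

open Pool.Agent.R528.RM
open Pool.Agent.R529.BU (om)
open Pool.Agent.R301.RM (RR)

variable {Ω : Type} {m0 : MeasurableSpace Ω} {μ : Measure Ω} [IsProbabilityMeasure μ]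
  {ℱ : Filtration ℕ m0} {A : ℕ → Set Ω}

lemma eg_mul_exp : eg * Real.exp (-Real.eulerMascheroniConstant) = 1 := by
  unfold eg
  rw [← Real.exp_add]
  simp

theorem limits_low (hA : ∀ n, MeasurableSet[ℱ n] (A n)) {z : ℕ → ℕ} (hmono : Monotone z) {θ : ℝ} (hθ : 0 < θ)
    (hθ1 : θ ≤ 1)
    (hz : Tendsto (fun n : ℕ => Real.log (z n) / Real.log (Real.log n)) atTop (𝓝 θ))
    (hcop : ∀ n, ¬ Free (z n) n → A n = ∅)
    (hd : ∀ᵐ ω ∂μ, Tendsto (fun n : ℕ => dens μ ℱ A n ω * Real.log n / MM (z (n + 1)))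
      (atTop ⊓ 𝓟 {n | Free (z (n + 1)) (n + 1)}) (𝓝 1)) :
    ∀ᵐ ω ∂μ, ∀ s : ℝ, 0 < s → ∃ c : ℝ, c < 1 ∧ ∃ᶠ x : ℝ in atTop, RR (rset A ω) s x < c := by
  have h : ∀ n : ℕ, ∃ a c : ℝ, (n : ℝ) + 3 ≤ a ∧ c < 1 ∧ ∀ᵐ ω ∂μ, ∃ᶠ x : ℕ in atTop, RR (rset A ω) a x < c := by
    intro n
    obtain ⟨u, hu, hom⟩ := Pool.Agent.R529.BU.om_lt (2 * ((n : ℝ) + 3) / θ + 2)
    have hn : (0 : ℝ) ≤ n := Nat.cast_nonneg n
    have h1 : 0 ≤ 2 * ((n : ℝ) + 3) / θ := by positivity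
    have h2 : (n : ℝ) + 3 ≤ θ / 2 * u := by
      have h3 : 2 * ((n : ℝ) + 3) / θ ≤ u := by linarith
      rw [div_le_iff₀ hθ] at h3
      linarith
    have h4 : eg * om u < 1 := by
      rw [← eg_mul_exp]
      exact mul_lt_mul_of_pos_left hom eg_pos
    obtain ⟨a, c, ha, hc, h⟩ := maier_low (μ := μ) hA hmono hθ hθ1 hz hcop hd (show 1 < u by linarith) h4 (by linarith)
    exact ⟨a, c, h2.trans ha, hc, h⟩
  choose a c ha hc h using h
  filter_upwards [ae_all_iff.2 h] with ω hω s hs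
  obtain ⟨n, hn⟩ := exists_nat_gt s
  obtain ⟨c', h1, h2⟩ := exists_between (hc n)
  exact ⟨c', h2, lower_exp hs (by linarith [ha n]) h1 (hω n)⟩

theorem limits_high (hA : ∀ n, MeasurableSet[ℱ n] (A n)) {z : ℕ → ℕ} (hmono : Monotone z) {θ : ℝ} (hθ : 0 < θ)
    (hθ1 : θ ≤ 1)
    (hz : Tendsto (fun n : ℕ => Real.log (z n) / Real.log (Real.log n)) atTop (𝓝 θ))
    (hcop : ∀ n, ¬ Free (z n) n → A n = ∅)
    (hd : ∀ᵐ ω ∂μ, Tendsto (fun n : ℕ => dens μ ℱ A n ω * Real.log n / MM (z (n + 1)))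
      (atTop ⊓ 𝓟 {n | Free (z (n + 1)) (n + 1)}) (𝓝 1)) :
    ∀ᵐ ω ∂μ, ∀ s : ℝ, 0 < s → ∃ c : ℝ, 1 < c ∧ ∃ᶠ x : ℝ in atTop, c < RR (rset A ω) s x := by
  have h : ∀ n : ℕ, ∃ a c : ℝ, (n : ℝ) + 3 ≤ a ∧ 1 < c ∧ ∀ᵐ ω ∂μ, ∃ᶠ x : ℕ in atTop, c < RR (rset A ω) a x := by
    intro n
    obtain ⟨u, hu, hom⟩ := Pool.Agent.R529.BU.om_gt (2 * ((n : ℝ) + 3) / θ + 2)
    have hn : (0 : ℝ) ≤ n := Nat.cast_nonneg n
    have h1 : 0 ≤ 2 * ((n : ℝ) + 3) / θ := by positivity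
    have h2 : (n : ℝ) + 3 ≤ θ / 2 * u := by
      have h3 : 2 * ((n : ℝ) + 3) / θ ≤ u := by linarith
      rw [div_le_iff₀ hθ] at h3
      linarith
    have h4 : 1 < eg * om u := by
      rw [← eg_mul_exp]
      exact mul_lt_mul_of_pos_left hom eg_pos
    obtain ⟨a, c, ha, hc, h⟩ := maier_high (μ := μ) hA hmono hθ hθ1 hz hcop hd (show 1 < u by linarith) h4 (by linarith)
    exact ⟨a, c, h2.trans ha, hc, h⟩
  choose a c ha hc h using h
  filter_upwards [ae_all_iff.2 h] with ω hω s hs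
  obtain ⟨n, hn⟩ := exists_nat_gt s
  obtain ⟨c', h1, h2⟩ := exists_between (hc n)
  exact ⟨c', h1, upper_exp hs (by linarith [ha n]) (by linarith) h2 (hω n)⟩

theorem limits_one (hA : ∀ n, MeasurableSet[ℱ n] (A n)) {z : ℕ → ℕ} (hmono : Monotone z) {θ : ℝ} (hθ : 0 < θ)
    (hz : Tendsto (fun n : ℕ => Real.log (z n) / Real.log (Real.log n)) atTop (𝓝 θ))
    (hcop : ∀ n, ¬ Free (z n) n → A n = ∅)
    (hd : ∀ᵐ ω ∂μ, Tendsto (fun n : ℕ => dens μ ℱ A n ω * Real.log n / MM (z (n + 1)))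
      (atTop ⊓ 𝓟 {n | Free (z (n + 1)) (n + 1)}) (𝓝 1)) :
    ∀ᵐ ω ∂μ, ∀ ε : ℝ, 0 < ε → ∃ s₀ : ℝ, ∀ s : ℝ, s₀ ≤ s → ∀ᶠ x : ℝ in atTop, |RR (rset A ω) s x - 1| ≤ ε := by
  have h : ∀ m : ℕ, ∃ K : ℕ, ∀ᵐ ω ∂μ, ∀ᶠ x : ℝ in atTop, ∀ H : ℝ, Real.log x ^ K ≤ H → H ≤ x →
      |(cntR (rset A ω) x H : ℝ) / (H / Real.log x) - 1| ≤ 1 / ((m : ℝ) + 1) :=
    fun m => real_law (μ := μ) hA hmono hθ hz hcop hd (by positivity)
  choose K hK using h
  filter_upwards [ae_all_iff.2 hK] with ω hω ε hε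
  obtain ⟨m, hm⟩ := exists_nat_one_div_lt hε
  refine ⟨K m, fun s hs => ?_⟩
  have h2 : ∀ᶠ x : ℝ in atTop, Real.log x ^ s ≤ x := by
    have := (isLittleO_log_rpow_rpow_atTop s (show (0 : ℝ) < 1 by norm_num)).def (show (0 : ℝ) < 1 by norm_num)
    filter_upwards [this, eventually_ge_atTop 1] with x hx hx1
    have hl := Real.log_nonneg hx1
    rw [Real.norm_of_nonneg (Real.rpow_nonneg hl _), Real.rpow_one, Real.norm_of_nonneg (by linarith)] at hx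
    linarith
  filter_upwards [hω m, h2, Real.tendsto_log_atTop.eventually_ge_atTop 1] with x h3 h4 h5
  have h6 := h3 (Real.log x ^ s) (by
    rw [← Real.rpow_natCast]
    exact Real.rpow_le_rpow_of_exponent_le h5 hs) h4
  refine le_trans (le_of_eq ?_) (h6.trans hm.le)
  congr 2
  unfold Pool.Agent.R301.RM.RR
  rw [div_div_eq_mul_div]
  ring

/-! ### In `[0, ∞]` -/

lemma liminf_lt_one {u : ℝ → ℝ} (h : ∃ c : ℝ, c < 1 ∧ ∃ᶠ x : ℝ in atTop, u x < c) :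
    liminf (fun x => ENNReal.ofReal (u x)) atTop < 1 := by
  obtain ⟨c, hc, h⟩ := h
  refine lt_of_le_of_lt (liminf_le_of_frequently_le (h.mono fun x hx => ENNReal.ofReal_le_ofReal hx.le)) ?_
  rw [← ENNReal.ofReal_one]
  exact (ENNReal.ofReal_lt_ofReal_iff one_pos).2 hc

lemma one_lt_limsup {u : ℝ → ℝ} (h : ∃ c : ℝ, 1 < c ∧ ∃ᶠ x : ℝ in atTop, c < u x) :
    1 < limsup (fun x => ENNReal.ofReal (u x)) atTop := by
  obtain ⟨c, hc, h⟩ := h
  refine lt_of_lt_of_le ?_ (le_limsup_of_frequently_le (h.mono fun x hx => ENNReal.ofReal_le_ofReal hx.le))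
  rw [← ENNReal.ofReal_one]
  exact (ENNReal.ofReal_lt_ofReal_iff (by linarith)).2 hc

lemma tendsto_liminf_limsup {u : ℝ → ℝ → ℝ}
    (h : ∀ ε : ℝ, 0 < ε → ∃ s₀ : ℝ, ∀ s : ℝ, s₀ ≤ s → ∀ᶠ x : ℝ in atTop, |u s x - 1| ≤ ε) :
    Tendsto (fun s => liminf (fun x => ENNReal.ofReal (u s x)) atTop) atTop (𝓝 1) ∧
    Tendsto (fun s => limsup (fun x => ENNReal.ofReal (u s x)) atTop) atTop (𝓝 1) := by
  have hlow : ∀ y : ℝ≥0∞, y < 1 → ∀ᶠ s : ℝ in atTop, y < liminf (fun x => ENNReal.ofReal (u s x)) atTop := by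
    intro y hy
    obtain ⟨r, hr0, hr1, hr2⟩ := ENNReal.lt_iff_exists_real_btwn.1 hy
    rw [← ENNReal.ofReal_one, ENNReal.ofReal_lt_ofReal_iff one_pos] at hr2
    obtain ⟨s₀, hs₀⟩ := h (1 - r) (by linarith)
    filter_upwards [eventually_ge_atTop s₀] with s hs
    refine lt_of_lt_of_le hr1 (le_liminf_of_le (by isBoundedDefault) ?_)
    filter_upwards [hs₀ s hs] with x hx
    apply ENNReal.ofReal_le_ofReal
    have := (abs_le.1 hx).1
    linarith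
  have hup : ∀ y : ℝ≥0∞, 1 < y → ∀ᶠ s : ℝ in atTop, limsup (fun x => ENNReal.ofReal (u s x)) atTop < y := by
    intro y hy
    obtain ⟨r, hr0, hr1, hr2⟩ := ENNReal.lt_iff_exists_real_btwn.1 hy
    have hr : 1 < r := by
      rw [← ENNReal.ofReal_one] at hr1
      by_contra hcon
      push Not at hcon
      exact absurd (ENNReal.ofReal_le_ofReal hcon) (not_le.2 hr1)
    obtain ⟨s₀, hs₀⟩ := h (r - 1) (by linarith)
    filter_upwards [eventually_ge_atTop s₀] with s hs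
    refine lt_of_le_of_lt (limsup_le_of_le (by isBoundedDefault) ?_) hr2
    filter_upwards [hs₀ s hs] with x hx
    apply ENNReal.ofReal_le_ofReal
    have := (abs_le.1 hx).2
    linarith
  have hle : ∀ s, liminf (fun x => ENNReal.ofReal (u s x)) atTop ≤ limsup (fun x => ENNReal.ofReal (u s x)) atTop :=
    fun s => liminf_le_limsup
  constructor
  · rw [tendsto_order]
    exact ⟨hlow, fun y hy => (hup y hy).mono fun s hs => (hle s).trans_lt hs⟩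
  · rw [tendsto_order]
    exact ⟨fun y hy => (hlow y hy).mono fun s hs => hs.trans_le (hle s), hup⟩

end Pool.Agent.R301.GM
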